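import Pool.Agent.H557Z.GamePoset

/-!
For every uncountable cardinal `κ` there is a poset with largest element that is strongly
`<κ`-distributive but not `κ`-strategically closed. The proof uses only ZFC: with
`λ = (2 ^ κ⁺)⁺`, an Ulam matrix gives a stationary set `A` of points of countable cofinality in
`λ` that does not reflect at stationarily many points of cofinality `κ⁺`; the poset consists of
the subsets of `λ` of size at most `κ` with no limit point in `A`, ordered by end-extension.
-/

universe u

namespace Pool.Agent.Results.MP_77bbd4_lc.AUndetermined

open Pool.Agent.H557Z.Game

theorem result (κ : Cardinal.{u}) (hκ : Cardinal.aleph0 < κ) :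
    ∃ (P : Type u) (_ : PartialOrder P) (_ : OrderTop P),
      StronglyDistributive P κ ∧ ¬ StrategicallyClosed P κ :=
  main κ hκ

end Pool.Agent.Results.MP_77bbd4_lc.AUndetermined
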